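import Pool.Agent.Lib.CF88.Grp

set_option autoImplicit false

/-! The invariant trace field of the group of a packing. -/

namespace Pool.Agent.CF88

/-- matrices with entries in `k` -/
def ent (k : IntermediateField ℚ ℂ) : Subgroup SL2 where
  carrier := {g | ∀ i j, g i j ∈ k}
  one_mem' := by
    obtain ⟨a, b, c, d⟩ := one_ent
    intro i j
    fin_cases i <;> fin_cases j
    · show (1 : SL2) 0 0 ∈ k
      rw [a]; exact k.one_mem
    · exact b ▸ k.zero_mem
    · exact c ▸ k.zero_mem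
    · show (1 : SL2) 1 1 ∈ k
      rw [d]; exact k.one_mem
  mul_mem' := by
    intro a b ha hb i j
    rw [mul_ent]
    exact k.add_mem (k.mul_mem (ha _ _) (hb _ _)) (k.mul_mem (ha _ _) (hb _ _))
  inv_mem' := by
    intro g hg i j
    obtain ⟨a, b, c, d⟩ := inv_ent g
    fin_cases i <;> fin_cases j
    · exact a ▸ hg 1 1
    · exact b ▸ k.neg_mem (hg 0 1)
    · exact c ▸ k.neg_mem (hg 1 0)
    · exact d ▸ hg 0 0

theorem rho_mem (k : IntermediateField ℚ ℂ) (n : ℕ) : (rho n : ℂ) ∈ k := by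
  have : (rho n : ℂ) = (((1 / 10) * (1 / 2) ^ n : ℚ) : ℂ) := by unfold rho; push_cast; ring
  rw [this]
  exact SubfieldClass.ratCast_mem k _

theorem cu_val (n : ℕ) : (cu n : ℂ) = (rho n : ℂ)⁻¹ := rfl

theorem grp_le_ent {k : IntermediateField ℚ ℂ} {om : ℂ} {P : ℕ → Set ℂ} (hP : Pack k om P)
    (hom : om ∈ k) : grp hP ≤ ent k := by
  rintro _ ⟨j, x, rfl⟩
  apply (ent k).mul_mem
  · intro i i'
    fin_cases i <;> fin_cases i'
    · exact k.one_mem
    · exact intCast_mem k j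
    · exact k.zero_mem
    · exact k.one_mem
  · have hof : ∀ i : Idx P, phi om P (FreeGroup.of i) ∈ ent k := by
      intro i
      rw [phi_of]
      have hp : i.1.2 ∈ k := hP.mem _ i.2
      have hq : i.1.2 + (rho i.1.1 : ℂ) * om ∈ k := k.add_mem hp (k.mul_mem (rho_mem k _) hom)
      have hc : (cu i.1.1 : ℂ) ∈ k := k.inv_mem (rho_mem k _)
      obtain ⟨a, b, c, d⟩ := gam_ent (cu i.1.1) i.1.2 (i.1.2 + (rho i.1.1 : ℂ) * om)
      show gam (cu i.1.1) i.1.2 (i.1.2 + (rho i.1.1 : ℂ) * om) ∈ ent k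
      intro u v
      fin_cases u <;> fin_cases v
      · exact a ▸ k.mul_mem hc hq
      · exact b ▸ k.sub_mem (k.neg_mem (k.mul_mem (k.mul_mem hc hp) hq)) (k.inv_mem hc)
      · exact c ▸ hc
      · exact d ▸ k.neg_mem (k.mul_mem hc hp)
    induction x using FreeGroup.induction_on with
    | C1 => rw [map_one]; exact (ent k).one_mem
    | of i => exact hof i
    | inv_of i _ => rw [map_inv]; exact (ent k).inv_mem (hof i)
    | mul a b ha hb => rw [map_mul]; exact (ent k).mul_mem ha hb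

theorem trace_diff (om : ℂ) (n : ℕ) (p : ℂ) :
    ((tr 1 ^ 2 * lt om n p true ^ 2 : SL2) : Matrix (Fin 2) (Fin 2) ℂ).trace -
      ((lt om n p true ^ 2 : SL2) : Matrix (Fin 2) (Fin 2) ℂ).trace = 2 * (rho n : ℂ)⁻¹ * om := by
  have e : lt om n p true = gam (cu n) p (p + (rho n : ℂ) * om) := rfl
  obtain ⟨a, b, c, d⟩ := gam_ent (cu n) p (p + (rho n : ℂ) * om)
  obtain ⟨a', b', c', d'⟩ := tr_ent 1
  have hr : (rho n : ℂ) ≠ 0 := by exact_mod_cast (rho_pos n).ne'
  rw [Matrix.trace_fin_two, Matrix.trace_fin_two, e]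
  show (tr 1 ^ 2 * gam (cu n) p (p + (rho n : ℂ) * om) ^ 2 : SL2) 0 0 +
    (tr 1 ^ 2 * gam (cu n) p (p + (rho n : ℂ) * om) ^ 2 : SL2) 1 1 -
    ((gam (cu n) p (p + (rho n : ℂ) * om) ^ 2 : SL2) 0 0 +
      (gam (cu n) p (p + (rho n : ℂ) * om) ^ 2 : SL2) 1 1) = _
  simp only [pow_two, mul_ent, a, b, c, d, a', b', c', d', cu_val]
  field_simp
  ring

theorem dense_of_nonreal (k : IntermediateField ℚ ℂ) {w : ℂ} (hw : w ∈ k) (him : w.im ≠ 0) :
    Dense (k : Set ℂ) := by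
  let F : ℝ × ℝ → ℂ := fun x => (x.1 : ℂ) + (x.2 : ℂ) * w
  have hF : Continuous F := by fun_prop
  have hs : Function.Surjective F := by
    intro z
    refine ⟨(z.re - z.im / w.im * w.re, z.im / w.im), ?_⟩
    apply Complex.ext
    · simp only [F, Complex.add_re, Complex.mul_re, Complex.ofReal_re, Complex.ofReal_im]; ring
    · simp only [F, Complex.add_im, Complex.mul_im, Complex.ofReal_re, Complex.ofReal_im]
      field_simp; ring
  have hq : DenseRange (Prod.map ((↑) : ℚ → ℝ) ((↑) : ℚ → ℝ)) :=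
    Rat.denseRange_cast.prodMap Rat.denseRange_cast
  have hd := hs.denseRange.comp hq hF
  refine Dense.mono ?_ hd
  rintro _ ⟨⟨a, b⟩, rfl⟩
  have e : (F ∘ Prod.map ((↑) : ℚ → ℝ) ((↑) : ℚ → ℝ)) (a, b) = (a : ℂ) + (b : ℂ) * w := by
    simp [F]
  rw [e]
  exact k.add_mem (SubfieldClass.ratCast_mem k a) (k.mul_mem (SubfieldClass.ratCast_mem k b) hw)

theorem main (k : IntermediateField ℚ ℂ) (th : ℂ) (hth : IntermediateField.adjoin ℚ {th} = k)
    (hk : ∃ w ∈ k, w.im ≠ 0) :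
    ∃ G : Subgroup SL2, DiscreteTopology G ∧ (∀ g ∈ G, IsOfFinOrder g → g = 1) ∧
      (∀ g : SL2, ∃ c ∈ G, c ≠ 1 ∧ ∀ i j, ‖(g⁻¹ * c * g) i j‖ ≤ 200000) ∧
      IntermediateField.adjoin ℚ ((fun g : SL2 => (g : Matrix (Fin 2) (Fin 2) ℂ).trace) ''
        (Subgroup.closure ((fun g : SL2 => g ^ 2) '' (G : Set SL2)) : Set SL2)) = k := by
  obtain ⟨w, hw, him⟩ := hk
  have hd := dense_of_nonreal k hw him
  have hthk : th ∈ k := hth ▸ IntermediateField.mem_adjoin_simple_self ℚ th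
  obtain ⟨M, hM⟩ := exists_nat_gt ‖th‖
  have hM0 : (0 : ℝ) < M := (norm_nonneg _).trans_lt hM
  have hMc : (M : ℂ) ≠ 0 := by exact_mod_cast hM0.ne'
  set om : ℂ := 4 + th / M with hom
  have hsmall : ‖th / M‖ ≤ 1 := by
    rw [norm_div, Complex.norm_natCast, div_le_one hM0]; exact hM.le
  have h4 : ‖(4 : ℂ)‖ = 4 := by simp
  have h5 : ‖om‖ ≤ 5 := by
    have := norm_add_le (4 : ℂ) (th / M)
    linarith
  have h3 : 3 ≤ ‖om‖ := by
    have := norm_sub_le om (th / M)
    have e : om - th / M = 4 := by rw [hom]; ring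
    rw [e] at this
    linarith
  have homk : om ∈ k := k.add_mem (ofNat_mem k 4) (k.div_mem hthk (natCast_mem k M))
  obtain ⟨P, hP⟩ := exists_pack (k : Set ℂ) om fun x hx j => k.add_mem hx (intCast_mem k j)
  refine ⟨grp hP, grp_discrete hP h5 h3, grp_torsionFree hP h5 h3,
    grp_confined hP hd h5 h3, le_antisymm ?_ ?_⟩
  · rw [IntermediateField.adjoin_le_iff]
    rintro _ ⟨g, hg, rfl⟩
    have hle : Subgroup.closure ((fun g : SL2 => g ^ 2) '' (grp hP : Set SL2)) ≤ ent k := by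
      rw [Subgroup.closure_le]
      rintro _ ⟨a, ha, rfl⟩
      exact (ent k).pow_mem (grp_le_ent hP homk ha) 2
    have hgk := hle hg
    show (g : Matrix (Fin 2) (Fin 2) ℂ).trace ∈ k
    rw [Matrix.trace_fin_two]
    exact k.add_mem (hgk 0 0) (hgk 1 1)
  · obtain ⟨p, hp, -⟩ := hP.full 0 0 k.zero_mem fun m hm => absurd hm (Nat.not_lt_zero m)
    set F := IntermediateField.adjoin ℚ ((fun g : SL2 => (g : Matrix (Fin 2) (Fin 2) ℂ).trace) ''
      (Subgroup.closure ((fun g : SL2 => g ^ 2) '' (grp hP : Set SL2)) : Set SL2)) with hF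
    have m1 : lt om 0 p true ^ 2 ∈ Subgroup.closure ((fun g : SL2 => g ^ 2) '' (grp hP : Set SL2)) :=
      Subgroup.subset_closure ⟨_, lt_mem hP hp true, rfl⟩
    have m2 : tr 1 ^ 2 ∈ Subgroup.closure ((fun g : SL2 => g ^ 2) '' (grp hP : Set SL2)) :=
      Subgroup.subset_closure ⟨_, tr_mem hP, rfl⟩
    have t1 : ((lt om 0 p true ^ 2 : SL2) : Matrix (Fin 2) (Fin 2) ℂ).trace ∈ F :=
      IntermediateField.subset_adjoin ℚ _ ⟨_, m1, rfl⟩
    have t2 : ((tr 1 ^ 2 * lt om 0 p true ^ 2 : SL2) : Matrix (Fin 2) (Fin 2) ℂ).trace ∈ F :=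
      IntermediateField.subset_adjoin ℚ _ ⟨_, Subgroup.mul_mem _ m2 m1, rfl⟩
    have t3 := F.sub_mem t2 t1
    rw [trace_diff] at t3
    have hr : (rho 0 : ℂ) ≠ 0 := by exact_mod_cast (rho_pos 0).ne'
    have e : th = (2 * (rho 0 : ℂ)⁻¹ * om * (rho 0 : ℂ) / 2 - 4) * M := by
      rw [hom]; field_simp; ring
    have hthF : th ∈ F := by
      rw [e]
      exact F.mul_mem (F.sub_mem (F.div_mem (F.mul_mem t3 (rho_mem F 0)) (ofNat_mem F 2))
        (ofNat_mem F 4)) (natCast_mem F M)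
    have hle : IntermediateField.adjoin ℚ {th} ≤ F := IntermediateField.adjoin_simple_le_iff.mpr hthF
    rwa [hth] at hle

theorem exists_gen (k : IntermediateField ℚ ℂ) [FiniteDimensional ℚ k] :
    ∃ th : ℂ, IntermediateField.adjoin ℚ {th} = k := by
  obtain ⟨a, ha⟩ := Field.exists_primitive_element ℚ k
  refine ⟨a, le_antisymm (IntermediateField.adjoin_simple_le_iff.mpr a.2) fun x hx => ?_⟩
  have hm : (⟨x, hx⟩ : k) ∈ IntermediateField.adjoin ℚ {a} := by rw [ha]; trivial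
  have key : ∀ y : k, y ∈ IntermediateField.adjoin ℚ {a} →
      (y : ℂ) ∈ IntermediateField.adjoin ℚ {(a : ℂ)} := by
    intro y hy
    induction hy using IntermediateField.adjoin_induction with
    | mem x hx =>
      rw [Set.mem_singleton_iff.mp hx]
      exact IntermediateField.mem_adjoin_simple_self ℚ _
    | algebraMap q =>
      have e : ((algebraMap ℚ k q : k) : ℂ) = (q : ℂ) := by simp
      rw [e]
      exact SubfieldClass.ratCast_mem _ q
    | add x y _ _ h1 h2 => exact IntermediateField.add_mem _ h1 h2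
    | inv x _ h1 => exact IntermediateField.inv_mem _ h1
    | mul x y _ _ h1 h2 => exact IntermediateField.mul_mem _ h1 h2
  exact key _ hm

end Pool.Agent.CF88
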