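import Mathlib

set_option autoImplicit false

/-! Rows of matrices in `SL(2,ℂ)`, disc pairings and translations. -/

namespace Pool.Agent.CF88

abbrev SL2 := Matrix.SpecialLinearGroup (Fin 2) ℂ

/-- bottom row -/
def rw2 (g : SL2) : Fin 2 → ℂ := fun j => g 1 j

/-- top row minus `s` times the bottom row -/
def uu (s : ℂ) (g : SL2) : Fin 2 → ℂ := fun j => g 0 j - s * g 1 j

theorem det_eq (g : SL2) : g 0 0 * g 1 1 - g 0 1 * g 1 0 = 1 := by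
  have := g.det_coe
  rwa [Matrix.det_fin_two] at this

theorem mul_ent (a b : SL2) (i j : Fin 2) : (a * b) i j = a i 0 * b 0 j + a i 1 * b 1 j := by
  simp [Matrix.SpecialLinearGroup.coe_mul, Matrix.mul_apply, Fin.sum_univ_two]

theorem inv_ent (g : SL2) :
    g⁻¹ 0 0 = g 1 1 ∧ g⁻¹ 0 1 = -g 0 1 ∧ g⁻¹ 1 0 = -g 1 0 ∧ g⁻¹ 1 1 = g 0 0 := by
  rw [Matrix.SpecialLinearGroup.SL2_inv_expl]
  simp

theorem one_le_uu (s : ℂ) (g : SL2) : 1 ≤ 2 * (‖uu s g‖ * ‖rw2 g‖) := by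
  have h : uu s g 0 * rw2 g 1 - uu s g 1 * rw2 g 0 = 1 := by
    have := det_eq g
    simp only [uu, rw2]
    linear_combination this
  have h1 : ‖uu s g 0 * rw2 g 1‖ ≤ ‖uu s g‖ * ‖rw2 g‖ := by
    rw [norm_mul]
    exact mul_le_mul (norm_le_pi_norm _ _) (norm_le_pi_norm _ _) (norm_nonneg _) (norm_nonneg _)
  have h2 : ‖uu s g 1 * rw2 g 0‖ ≤ ‖uu s g‖ * ‖rw2 g‖ := by
    rw [norm_mul]
    exact mul_le_mul (norm_le_pi_norm _ _) (norm_le_pi_norm _ _) (norm_nonneg _) (norm_nonneg _)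
  have h3 := norm_sub_le (uu s g 0 * rw2 g 1) (uu s g 1 * rw2 g 0)
  rw [h, norm_one] at h3
  linarith

theorem rw2_pos (g : SL2) : 0 < ‖rw2 g‖ := by
  have := one_le_uu 0 g
  rcases (norm_nonneg (rw2 g)).eq_or_lt with h | h
  · rw [← h] at this; norm_num at this
  · exact h

theorem norm_two_le {v : Fin 2 → ℂ} {r : ℝ} (h0 : ‖v 0‖ ≤ r) (h1 : ‖v 1‖ ≤ r) : ‖v‖ ≤ r := by
  rw [pi_norm_le_iff_of_nonneg ((norm_nonneg _).trans h0)]
  intro i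
  fin_cases i
  · exact h0
  · exact h1

theorem exists_foot (g : SL2) : ∃ z, ‖uu z g‖ * ‖rw2 g‖ ≤ 1 := by
  have hd := det_eq g
  have hp := rw2_pos g
  rcases le_total ‖g 1 1‖ ‖g 1 0‖ with h | h
  · have hr : ‖rw2 g‖ ≤ ‖g 1 0‖ := norm_two_le le_rfl h
    have hc : g 1 0 ≠ 0 := by
      intro h0; rw [h0, norm_zero] at hr; linarith
    have hcp : 0 < ‖g 1 0‖ := norm_pos_iff.mpr hc
    refine ⟨g 0 0 / g 1 0, ?_⟩
    have hu : ‖uu (g 0 0 / g 1 0) g‖ ≤ ‖g 1 0‖⁻¹ := by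
      apply norm_two_le
      · have : uu (g 0 0 / g 1 0) g 0 = 0 := by simp only [uu]; field_simp; ring
        rw [this, norm_zero]; positivity
      · have : uu (g 0 0 / g 1 0) g 1 = -(g 1 0)⁻¹ := by
          simp only [uu]; field_simp; linear_combination -hd
        rw [this, norm_neg, norm_inv]
    calc _ ≤ ‖g 1 0‖⁻¹ * ‖g 1 0‖ := mul_le_mul hu hr (norm_nonneg _) (by positivity)
      _ = 1 := inv_mul_cancel₀ hcp.ne'
  · have hr : ‖rw2 g‖ ≤ ‖g 1 1‖ := norm_two_le h le_rfl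
    have hc : g 1 1 ≠ 0 := by
      intro h0; rw [h0, norm_zero] at hr; linarith
    have hcp : 0 < ‖g 1 1‖ := norm_pos_iff.mpr hc
    refine ⟨g 0 1 / g 1 1, ?_⟩
    have hu : ‖uu (g 0 1 / g 1 1) g‖ ≤ ‖g 1 1‖⁻¹ := by
      apply norm_two_le
      · have : uu (g 0 1 / g 1 1) g 0 = (g 1 1)⁻¹ := by
          simp only [uu]; field_simp; linear_combination hd
        rw [this, norm_inv]
      · have : uu (g 0 1 / g 1 1) g 1 = 0 := by simp only [uu]; field_simp; ring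
        rw [this, norm_zero]; positivity
    calc _ ≤ ‖g 1 1‖⁻¹ * ‖g 1 1‖ := mul_le_mul hu hr (norm_nonneg _) (by positivity)
      _ = 1 := inv_mul_cancel₀ hcp.ne'

theorem uu_sub (s t : ℂ) (g : SL2) : ‖s - t‖ * ‖rw2 g‖ ≤ ‖uu s g‖ + ‖uu t g‖ := by
  have e : (s - t) • rw2 g = uu t g - uu s g := by
    ext j; simp only [uu, rw2, Pi.smul_apply, Pi.sub_apply, smul_eq_mul]; ring
  rw [← norm_smul, e]
  have := norm_sub_le (uu t g) (uu s g)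
  linarith

theorem uu_le (s t : ℂ) (g : SL2) : ‖uu s g‖ ≤ ‖uu t g‖ + ‖t - s‖ * ‖rw2 g‖ := by
  have e : uu s g = uu t g + (t - s) • rw2 g := by
    ext j; simp only [uu, rw2, Pi.smul_apply, Pi.add_apply, smul_eq_mul]; ring
  rw [e, ← norm_smul]
  exact norm_add_le _ _

/-- translation -/
def tr (t : ℂ) : SL2 := ⟨!![1, t; 0, 1], by simp [Matrix.det_fin_two]⟩

/-- the pairing of the discs with centres `p` (source) and `q` (target), radius `1 / |c|` -/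
noncomputable def gam (c : ℂˣ) (p q : ℂ) : SL2 :=
  ⟨!![c * q, -(c * p * q) - (c : ℂ)⁻¹; c, -(c * p)], by
    have := c.ne_zero
    rw [Matrix.det_fin_two_of]; field_simp; ring⟩

theorem tr_ent (t : ℂ) : tr t 0 0 = 1 ∧ tr t 0 1 = t ∧ tr t 1 0 = 0 ∧ tr t 1 1 = 1 :=
  ⟨rfl, rfl, rfl, rfl⟩

theorem gam_ent (c : ℂˣ) (p q : ℂ) : gam c p q 0 0 = c * q ∧
    gam c p q 0 1 = -(c * p * q) - (c : ℂ)⁻¹ ∧ gam c p q 1 0 = c ∧ gam c p q 1 1 = -(c * p) :=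
  ⟨rfl, rfl, rfl, rfl⟩

theorem sl_ext {a b : SL2} (h00 : a 0 0 = b 0 0) (h01 : a 0 1 = b 0 1) (h10 : a 1 0 = b 1 0)
    (h11 : a 1 1 = b 1 1) : a = b := by
  ext i j
  fin_cases i <;> fin_cases j <;> assumption

theorem one_ent : (1 : SL2) 0 0 = 1 ∧ (1 : SL2) 0 1 = 0 ∧ (1 : SL2) 1 0 = 0 ∧ (1 : SL2) 1 1 = 1 := by
  simp

theorem tr_zero : tr 0 = 1 := by
  obtain ⟨a, b, c, d⟩ := tr_ent 0
  obtain ⟨a', b', c', d'⟩ := one_ent
  apply sl_ext <;> simp only [*]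

theorem tr_mul (s t : ℂ) : tr s * tr t = tr (s + t) := by
  obtain ⟨a, b, c, d⟩ := tr_ent s
  obtain ⟨a', b', c', d'⟩ := tr_ent t
  obtain ⟨a2, b2, c2, d2⟩ := tr_ent (s + t)
  apply sl_ext <;> rw [mul_ent] <;> simp only [*] <;> ring

theorem tr_inv (t : ℂ) : (tr t)⁻¹ = tr (-t) := by
  rw [inv_eq_iff_mul_eq_one, tr_mul, add_neg_cancel, tr_zero]

theorem tr_gam (t : ℂ) (c : ℂˣ) (p q : ℂ) : tr t * gam c p q = gam c (p + t) (q + t) * tr t := by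
  obtain ⟨a, b, c1, d⟩ := tr_ent t
  obtain ⟨a', b', c', d'⟩ := gam_ent c p q
  obtain ⟨a2, b2, c2, d2⟩ := gam_ent c (p + t) (q + t)
  apply sl_ext <;> rw [mul_ent, mul_ent] <;> simp only [*] <;> ring

theorem gam_inv (c : ℂˣ) (p q : ℂ) : (gam c p q)⁻¹ = gam (-c) q p := by
  obtain ⟨a, b, c1, d⟩ := inv_ent (gam c p q)
  obtain ⟨a', b', c', d'⟩ := gam_ent c p q
  obtain ⟨a2, b2, c2, d2⟩ := gam_ent (-c) q p
  apply sl_ext <;> simp only [*, Units.val_neg, inv_neg] <;> ring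

theorem rw2_tr_mul (t : ℂ) (g : SL2) : rw2 (tr t * g) = rw2 g := by
  obtain ⟨a, b, c1, d⟩ := tr_ent t
  ext j
  simp only [rw2]
  rw [mul_ent, c1, d]; ring

theorem norm_rw2_one : ‖rw2 1‖ ≤ 1 := by
  obtain ⟨a', b', c', d'⟩ := one_ent
  apply norm_two_le <;> simp only [rw2, *] <;> simp

theorem one_le_uu_one (s : ℂ) : 1 ≤ ‖uu s 1‖ := by
  obtain ⟨a', b', c', d'⟩ := one_ent
  have := norm_le_pi_norm (uu s 1) 0
  have e : uu s 1 0 = 1 := by simp only [uu, *]; ring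
  rwa [e, norm_one] at this

theorem rw2_gam_mul (c : ℂˣ) (p q : ℂ) (g : SL2) :
    ‖rw2 (gam c p q * g)‖ = ‖(c : ℂ)‖ * ‖uu p g‖ := by
  obtain ⟨a', b', c', d'⟩ := gam_ent c p q
  have e : rw2 (gam c p q * g) = (c : ℂ) • uu p g := by
    ext j
    simp only [rw2, uu, Pi.smul_apply, smul_eq_mul]
    rw [mul_ent, c', d']; ring
  rw [e, norm_smul]

theorem uu_gam_mul (c : ℂˣ) (p q : ℂ) (g : SL2) :
    ‖uu q (gam c p q * g)‖ = ‖(c : ℂ)‖⁻¹ * ‖rw2 g‖ := by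
  obtain ⟨a', b', c', d'⟩ := gam_ent c p q
  have e : uu q (gam c p q * g) = (-(c : ℂ)⁻¹) • rw2 g := by
    ext j
    simp only [rw2, uu, Pi.smul_apply, smul_eq_mul]
    rw [mul_ent, mul_ent, a', b', c', d']; ring
  rw [e, norm_smul, norm_neg, norm_inv]

theorem conj_tr_le (y : SL2) (i j : Fin 2) : ‖(y⁻¹ * tr 1 * y) i j‖ ≤ 1 + ‖rw2 y‖ * ‖rw2 y‖ := by
  obtain ⟨a, b, c1, d⟩ := tr_ent 1
  obtain ⟨a', b', c', d'⟩ := inv_ent y
  have hd := det_eq y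
  have hb : ∀ i j, ‖y 1 i * y 1 j‖ ≤ ‖rw2 y‖ * ‖rw2 y‖ := fun i j => by
    rw [norm_mul]
    exact mul_le_mul (norm_le_pi_norm (rw2 y) i) (norm_le_pi_norm (rw2 y) j) (norm_nonneg _)
      (norm_nonneg _)
  have key : ∀ (e : ℂ) (w : ℂ), ‖e‖ ≤ 1 → ‖w‖ ≤ ‖rw2 y‖ * ‖rw2 y‖ →
      ‖e + w‖ ≤ 1 + ‖rw2 y‖ * ‖rw2 y‖ := fun e w h1 h2 => (norm_add_le _ _).trans (by linarith)
  fin_cases i <;> fin_cases j
  · have e : (y⁻¹ * tr 1 * y) 0 0 = 1 + y 1 1 * y 1 0 := by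
      simp only [mul_ent, *]; linear_combination hd
    exact e ▸ key _ _ (by simp) (hb 1 0)
  · have e : (y⁻¹ * tr 1 * y) 0 1 = 0 + y 1 1 * y 1 1 := by
      simp only [mul_ent, *]; ring
    exact e ▸ key _ _ (by simp) (hb 1 1)
  · have e : (y⁻¹ * tr 1 * y) 1 0 = 0 + -(y 1 0 * y 1 0) := by
      simp only [mul_ent, *]; ring
    exact e ▸ key _ _ (by simp) (by rw [norm_neg]; exact hb 0 0)
  · have e : (y⁻¹ * tr 1 * y) 1 1 = 1 + -(y 1 0 * y 1 1) := by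
      simp only [mul_ent, *]; linear_combination hd
    exact e ▸ key _ _ (by simp) (by rw [norm_neg]; exact hb 0 1)

theorem conj_gam_le (c : ℂˣ) (p q : ℂ) (y : SL2) (i j : Fin 2) :
    ‖(y⁻¹ * gam c p q * y) i j‖ ≤
      ‖(c : ℂ)‖⁻¹ * (‖rw2 y‖ * ‖rw2 y‖) + ‖(c : ℂ)‖ * (‖uu q y‖ * ‖uu p y‖) := by
  obtain ⟨a, b, c1, d⟩ := gam_ent c p q
  obtain ⟨a', b', c', d'⟩ := inv_ent y
  have key : ∀ (i i' : Fin 2) (w : ℂ),
      (w = -((c : ℂ)⁻¹ * (rw2 y i * rw2 y j)) - c * (uu q y i * uu p y j) ∨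
       w = (c : ℂ)⁻¹ * (rw2 y i * rw2 y j) + c * (uu q y i * uu p y j)) → i' = i' →
      ‖w‖ ≤ ‖(c : ℂ)‖⁻¹ * (‖rw2 y‖ * ‖rw2 y‖) + ‖(c : ℂ)‖ * (‖uu q y‖ * ‖uu p y‖) := by
    intro i _ w hw _
    have h1 : ‖(c : ℂ)⁻¹ * (rw2 y i * rw2 y j)‖ ≤ ‖(c : ℂ)‖⁻¹ * (‖rw2 y‖ * ‖rw2 y‖) := by
      rw [norm_mul, norm_mul, norm_inv]
      exact mul_le_mul_of_nonneg_left (mul_le_mul (norm_le_pi_norm _ _) (norm_le_pi_norm _ _)
        (norm_nonneg _) (norm_nonneg _)) (by positivity)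
    have h2 : ‖(c : ℂ) * (uu q y i * uu p y j)‖ ≤ ‖(c : ℂ)‖ * (‖uu q y‖ * ‖uu p y‖) := by
      rw [norm_mul, norm_mul]
      exact mul_le_mul_of_nonneg_left (mul_le_mul (norm_le_pi_norm _ _) (norm_le_pi_norm _ _)
        (norm_nonneg _) (norm_nonneg _)) (by positivity)
    rcases hw with rfl | rfl
    · refine (norm_sub_le _ _).trans ?_
      rw [norm_neg]; linarith
    · exact (norm_add_le _ _).trans (by linarith)
  fin_cases i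
  · refine key 1 0 _ (Or.inl ?_) rfl
    show (y⁻¹ * gam c p q * y) 0 j = _
    simp only [mul_ent, rw2, uu, *]; ring
  · refine key 0 0 _ (Or.inr ?_) rfl
    show (y⁻¹ * gam c p q * y) 1 j = _
    simp only [mul_ent, rw2, uu, *]; ring

end Pool.Agent.CF88
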