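import Pool.Agent.Lib.CF88.Pack
import Pool.Agent.Lib.CF88.Mat

set_option autoImplicit false

/-! The group of a disc packing: ping-pong, discreteness, no torsion, bounded displacement. -/

namespace Pool.Agent.CF88

/-- the reciprocal radius as a unit -/
noncomputable def cu (n : ℕ) : ℂˣ :=
  Units.mk0 ((rho n : ℂ)⁻¹) (inv_ne_zero (by exact_mod_cast (rho_pos n).ne'))

theorem norm_cu (n : ℕ) : ‖(cu n : ℂ)‖ = (rho n)⁻¹ := by
  show ‖(rho n : ℂ)⁻¹‖ = _
  rw [norm_inv, Complex.norm_real, Real.norm_eq_abs, abs_of_pos (rho_pos n)]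

/-- the letter with target disc `b` and source disc `!b` of the pair `(n, p)` -/
noncomputable def lt (om : ℂ) (n : ℕ) (p : ℂ) (b : Bool) : SL2 :=
  gam (cond b (cu n) (-cu n)) (ctr om n p (!b)) (ctr om n p b)

theorem lt_inv (om : ℂ) (n : ℕ) (p : ℂ) : (lt om n p true)⁻¹ = lt om n p false := by
  unfold lt; rw [gam_inv]; rfl

theorem norm_sc (n : ℕ) (b : Bool) : ‖((cond b (cu n) (-cu n) : ℂˣ) : ℂ)‖ = (rho n)⁻¹ := by
  cases b
  · simp only [cond_false, Units.val_neg, norm_neg, norm_cu]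
  · simp only [cond_true, norm_cu]

theorem rw2_lt (om : ℂ) (n : ℕ) (p : ℂ) (b : Bool) (g : SL2) :
    rho n * ‖rw2 (lt om n p b * g)‖ = ‖uu (ctr om n p (!b)) g‖ := by
  unfold lt
  rw [rw2_gam_mul, norm_sc, ← mul_assoc, mul_inv_cancel₀ (rho_pos n).ne', one_mul]

theorem uu_lt (om : ℂ) (n : ℕ) (p : ℂ) (b : Bool) (g : SL2) :
    ‖uu (ctr om n p b) (lt om n p b * g)‖ = rho n * ‖rw2 g‖ := by
  unfold lt
  rw [uu_gam_mul, norm_sc, inv_inv]

theorem tr_lt (om : ℂ) (n : ℕ) (p t : ℂ) (b : Bool) :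
    tr t * lt om n p b = lt om n (p + t) b * tr t := by
  unfold lt; rw [tr_gam, ctr_add, ctr_add]

/-- index set of the pairs -/
abbrev Idx (P : ℕ → Set ℂ) : Type := {x : ℕ × ℂ // x.2 ∈ P x.1}

noncomputable def phi (om : ℂ) (P : ℕ → Set ℂ) : FreeGroup (Idx P) →* SL2 :=
  FreeGroup.lift fun i => lt om i.1.1 i.1.2 true

theorem phi_of (om : ℂ) (P : ℕ → Set ℂ) (i : Idx P) :
    phi om P (FreeGroup.of i) = lt om i.1.1 i.1.2 true := FreeGroup.lift_apply_of

theorem phi_mk (om : ℂ) (P : ℕ → Set ℂ) (L : List (Idx P × Bool)) :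
    phi om P (FreeGroup.mk L) = (L.map fun x => lt om x.1.1.1 x.1.1.2 x.2).prod := by
  unfold phi
  rw [FreeGroup.lift_mk]
  congr 1
  apply List.map_congr_left
  rintro ⟨i, b⟩ _
  cases b
  · exact lt_inv _ _ _
  · rfl

section
variable {K : Set ℂ} {om : ℂ} {P : ℕ → Set ℂ}

theorem pingpong (hP : Pack K om P) (h5 : ‖om‖ ≤ 5) (h3 : 3 ≤ ‖om‖) :
    ∀ (L : List (Idx P × Bool)) (a : Idx P × Bool), FreeGroup.IsReduced (a :: L) →
      ‖uu (ctr om a.1.1.1 a.1.1.2 a.2) (((a :: L).map fun x => lt om x.1.1.1 x.1.1.2 x.2).prod)‖ ≤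
        rho a.1.1.1 * ‖rw2 (((a :: L).map fun x => lt om x.1.1.1 x.1.1.2 x.2).prod)‖ := by
  intro L
  induction L with
  | nil =>
    intro a _
    rw [List.map_cons, List.prod_cons, uu_lt, rw2_lt, List.map_nil, List.prod_nil]
    have h1 := one_le_uu_one (ctr om a.1.1.1 a.1.1.2 (!a.2))
    have h2 := norm_rw2_one
    have h3 := rho_le a.1.1.1
    have h4 := rho_pos a.1.1.1
    nlinarith
  | cons b L ih =>
    intro a hred
    rw [FreeGroup.isReduced_cons_cons] at hred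
    have hb := ih b hred.2
    rw [List.map_cons, List.prod_cons, uu_lt, rw2_lt]
    set w := ((b :: L).map fun x => lt om x.1.1.1 x.1.1.2 x.2).prod
    have hne : ¬ (a.1.1.1 = b.1.1.1 ∧ a.1.1.2 = b.1.1.2 ∧ (!a.2) = b.2) := by
      rintro ⟨h1, h2, h4⟩
      have := hred.1 (Subtype.ext (Prod.ext h1 h2))
      rw [← this] at h4
      simp at h4
    have hsep := hP.sep h5 h3 a.1.2 b.1.2 (!a.2) b.2 hne
    have hsub := uu_sub (ctr om a.1.1.1 a.1.1.2 (!a.2)) (ctr om b.1.1.1 b.1.1.2 b.2) w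
    have hmin : 0 < min (rho a.1.1.1) (rho b.1.1.1) := lt_min (rho_pos _) (rho_pos _)
    have hw := rw2_pos w
    nlinarith

theorem phi_big (hP : Pack K om P) (h5 : ‖om‖ ≤ 5) (h3 : 3 ≤ ‖om‖) (x : FreeGroup (Idx P))
    (hx : ‖rw2 (phi om P x)‖ ≤ 2) : x = 1 := by
  classical
  by_contra hne
  have hred : FreeGroup.IsReduced x.toWord := FreeGroup.isReduced_toWord
  have hmk : FreeGroup.mk x.toWord = x := FreeGroup.mk_toWord
  rcases hL : x.toWord with _ | ⟨a, L⟩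
  · exact hne (FreeGroup.toWord_eq_nil_iff.mp hL)
  · rw [hL] at hred hmk
    have h := pingpong hP h5 h3 L a hred
    rw [← phi_mk, hmk] at h
    have h1 := one_le_uu (ctr om a.1.1.1 a.1.1.2 a.2) (phi om P x)
    have h2 := rho_le a.1.1.1
    have h4 := rw2_pos (phi om P x)
    have h6 : ‖uu (ctr om a.1.1.1 a.1.1.2 a.2) (phi om P x)‖ ≤ 1 / 10 * 2 :=
      h.trans (mul_le_mul h2 hx h4.le (by norm_num))
    have h7 := mul_le_mul h6 hx h4.le (by norm_num)
    linarith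

theorem tr_phi (hP : Pack K om P) (j : ℤ) (x : FreeGroup (Idx P)) :
    ∃ x', tr j * phi om P x = phi om P x' * tr j := by
  let sh : Idx P → Idx P := fun i => ⟨(i.1.1, i.1.2 + j), hP.per _ _ i.2 j⟩
  have h : (MulAut.conj (tr j)).toMonoidHom.comp (phi om P) =
      (phi om P).comp (FreeGroup.map sh) := by
    apply FreeGroup.ext_hom
    intro i
    simp only [MonoidHom.comp_apply, FreeGroup.map.of, phi_of, MulEquiv.coe_toMonoidHom,
      MulAut.conj_apply]
    rw [tr_lt, mul_inv_cancel_right]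
  refine ⟨FreeGroup.map sh x, ?_⟩
  have := DFunLike.congr_fun h x
  simp only [MonoidHom.comp_apply, MulEquiv.coe_toMonoidHom, MulAut.conj_apply] at this
  rw [← this, inv_mul_cancel_right]

theorem phi_tr (hP : Pack K om P) (j : ℤ) (x : FreeGroup (Idx P)) :
    ∃ x', phi om P x * tr j = tr j * phi om P x' := by
  obtain ⟨x', h⟩ := tr_phi hP (-j) x
  refine ⟨x', ?_⟩
  have e : tr ((-j : ℤ) : ℂ) = (tr j)⁻¹ := by rw [tr_inv]; push_cast; rfl
  rw [e] at h
  calc phi om P x * tr j = tr j * ((tr j)⁻¹ * phi om P x) * tr j := by group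
    _ = tr j * phi om P x' := by rw [h]; group

/-- the group of the packing -/
def grp (hP : Pack K om P) : Subgroup SL2 where
  carrier := {g | ∃ (j : ℤ) (x : FreeGroup (Idx P)), g = tr j * phi om P x}
  one_mem' := ⟨0, 1, by simp [tr_zero]⟩
  mul_mem' := by
    rintro _ _ ⟨j, x, rfl⟩ ⟨j', x', rfl⟩
    obtain ⟨y, hy⟩ := phi_tr hP j' x
    refine ⟨j + j', y * x', ?_⟩
    push_cast
    rw [← tr_mul, map_mul]
    calc _ = tr j * (phi om P x * tr j') * phi om P x' := by group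
      _ = _ := by rw [hy]; group
  inv_mem' := by
    rintro _ ⟨j, x, rfl⟩
    obtain ⟨y, hy⟩ := phi_tr hP (-j) x⁻¹
    refine ⟨-j, y, ?_⟩
    rw [← hy, mul_inv_rev, map_inv, tr_inv]
    push_cast; rfl

theorem tr_mem (hP : Pack K om P) : tr 1 ∈ grp hP := ⟨1, 1, by simp⟩

theorem lt_mem (hP : Pack K om P) {n : ℕ} {p : ℂ} (hp : p ∈ P n) (b : Bool) :
    lt om n p b ∈ grp hP := by
  have h : lt om n p true ∈ grp hP :=
    ⟨0, FreeGroup.of ⟨(n, p), hp⟩, by rw [phi_of]; simp [tr_zero]⟩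
  cases b
  · rw [← lt_inv]; exact (grp hP).inv_mem h
  · exact h

theorem grp_discrete (hP : Pack K om P) (h5 : ‖om‖ ≤ 5) (h3 : 3 ≤ ‖om‖) :
    DiscreteTopology (grp hP) := by
  apply discreteTopology_of_isOpen_singleton_one
  have hc : ∀ i j : Fin 2, Continuous fun g : grp hP => ‖(g : SL2) i j‖ := fun i j => by
    have h1 : Continuous fun g : SL2 => (g : Matrix (Fin 2) (Fin 2) ℂ) := continuous_subtype_val
    exact ((h1.comp continuous_subtype_val).matrix_elem i j).norm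
  have ho : IsOpen {g : grp hP | ‖(g : SL2) 1 0‖ < 2 ∧ ‖(g : SL2) 1 1‖ < 2 ∧ ‖(g : SL2) 0 1‖ < 1} :=
    (isOpen_lt (hc 1 0) continuous_const).inter
      ((isOpen_lt (hc 1 1) continuous_const).inter (isOpen_lt (hc 0 1) continuous_const))
  convert ho using 1
  ext g
  constructor
  · rintro rfl
    obtain ⟨a', b', c', d'⟩ := one_ent
    refine ⟨?_, ?_, ?_⟩
    · show ‖(1 : SL2) 1 0‖ < 2
      rw [c']; simp
    · show ‖(1 : SL2) 1 1‖ < 2
      rw [d']; simp
    · show ‖(1 : SL2) 0 1‖ < 1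
      rw [b']; simp
  · rintro ⟨h1, h2, h4⟩
    obtain ⟨g, j, x, rfl⟩ := g
    have hr : ‖rw2 (tr j * phi om P x)‖ ≤ 2 := norm_two_le h1.le h2.le
    rw [rw2_tr_mul] at hr
    have hx := phi_big hP h5 h3 x hr
    subst hx
    have h6 : ‖(tr j * phi om P 1) 0 1‖ < 1 := h4
    rw [map_one, mul_one, (tr_ent _).2.1, Complex.norm_intCast] at h6
    have hj : j = 0 := by
      have : |j| < 1 := by exact_mod_cast h6
      exact Int.abs_lt_one_iff.mp this
    subst hj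
    apply Subtype.ext
    simp [tr_zero]

theorem grp_torsionFree (hP : Pack K om P) (h5 : ‖om‖ ≤ 5) (h3 : 3 ≤ ‖om‖) :
    ∀ g ∈ grp hP, IsOfFinOrder g → g = 1 := by
  rintro _ ⟨j, x, rfl⟩ hfin
  obtain ⟨e, he, h1⟩ := isOfFinOrder_iff_pow_eq_one.mp hfin
  have hpow : ∀ e : ℕ, ∃ x', (tr j * phi om P x) ^ e = tr (e * j) * phi om P x' := by
    intro e
    induction e with
    | zero => exact ⟨1, by simp [tr_zero]⟩
    | succ e ih =>
      obtain ⟨x', hx'⟩ := ih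
      obtain ⟨y, hy⟩ := phi_tr hP j x'
      refine ⟨y * x, ?_⟩
      have e1 : tr (((e + 1 : ℕ) : ℂ) * j) = tr (e * j) * tr j := by
        rw [tr_mul]; congr 1; push_cast; ring
      rw [pow_succ, hx', e1, map_mul]
      calc _ = tr (e * j) * (phi om P x' * tr j) * phi om P x := by group
        _ = _ := by rw [hy]; group
  obtain ⟨x', hx'⟩ := hpow e
  rw [h1] at hx'
  have hr : ‖rw2 (phi om P x')‖ ≤ 2 := by
    rw [← rw2_tr_mul (e * j), ← hx']
    have := norm_rw2_one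
    linarith
  have hx1 := phi_big hP h5 h3 x' hr
  rw [hx1, map_one, mul_one] at hx'
  have h0 : (e : ℂ) * j = 0 := by
    have h2 := (tr_ent ((e : ℂ) * j)).2.1
    rw [← hx', one_ent.2.1] at h2
    exact h2.symm
  have hj : (j : ℂ) = 0 := by
    rcases mul_eq_zero.mp h0 with h | h
    · exact absurd (by exact_mod_cast h) he.ne'
    · exact h
  rw [hj, tr_zero, one_mul] at h1 ⊢
  have hxe : x ^ e = 1 := by
    apply phi_big hP h5 h3
    rw [map_pow, h1]
    have := norm_rw2_one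
    linarith
  have : x = 1 := IsMulTorsionFree.pow_left_injective he.ne' (by simpa using hxe)
  rw [this, map_one]

theorem exists_outside (hP : Pack K om P) (h5 : ‖om‖ ≤ 5) (h3 : 3 ≤ ‖om‖) (g : SL2)
    (hlow : ∀ d ∈ grp hP, 2 ≤ ‖rw2 (d * g)‖) :
    ∃ d ∈ grp hP, ∀ n, ∀ p ∈ P n, ∀ b,
      rho n * ‖rw2 (d * g)‖ ≤ ‖uu (ctr om n p b) (d * g)‖ := by
  by_contra hno
  push Not at hno
  let S : Set ℝ := {r | ∃ d ∈ grp hP, r = ‖rw2 (d * g)‖}
  have hne : S.Nonempty := ⟨_, 1, (grp hP).one_mem, rfl⟩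
  have hbd : BddBelow S := ⟨2, by rintro _ ⟨d, hd, rfl⟩; exact hlow d hd⟩
  set mu := sInf S with hmu
  have hmu2 : 2 ≤ mu := le_csInf hne (by rintro _ ⟨d, hd, rfl⟩; exact hlow d hd)
  set ka : ℝ := 1 / (8 * mu ^ 2) with hka
  have hka0 : 0 < ka := by positivity
  have hka1 : ka ≤ 1 := by
    rw [hka, div_le_one (by positivity)]; nlinarith
  obtain ⟨_, ⟨d, hd, rfl⟩, hlt⟩ := exists_lt_of_csInf_lt hne (show mu < mu * (1 + ka) by nlinarith)
  obtain ⟨n, p, hp, b, hin⟩ := hno d hd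
  have hd' : lt om n p (!b) * d ∈ grp hP := (grp hP).mul_mem (lt_mem hP hp _) hd
  obtain ⟨n', p', hp', b', hin'⟩ := hno _ hd'
  have hge : mu ≤ ‖rw2 (lt om n p (!b) * d * g)‖ := csInf_le hbd ⟨_, hd', rfl⟩
  rw [mul_assoc] at hin' hge
  set y := d * g
  set y' := lt om n p (!b) * y with hy'
  have e1 : rho n * ‖rw2 y'‖ = ‖uu (ctr om n p b) y‖ := by
    have := rw2_lt om n p (!b) y
    rwa [Bool.not_not] at this
  have e2 : ‖uu (ctr om n p (!b)) y'‖ = rho n * ‖rw2 y‖ := uu_lt om n p (!b) y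
  have hr := rho_pos n
  have hr' := rho_pos n'
  have hp1 := rw2_pos y'
  have hdec : ‖rw2 y'‖ < ‖rw2 y‖ := by
    have : rho n * ‖rw2 y'‖ < rho n * ‖rw2 y‖ := by linarith
    exact lt_of_mul_lt_mul_left this hr.le
  have hne' : ¬ (n = n' ∧ p = p' ∧ (!b) = b') := by
    rintro ⟨rfl, rfl, rfl⟩
    have : rho n * ‖rw2 y'‖ < rho n * ‖rw2 y‖ := by linarith
    linarith
  have hsep := hP.sep h5 h3 hp hp' (!b) b' hne'
  have hsub := uu_sub (ctr om n p (!b)) (ctr om n' p' b') y'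
  have hmain : (rho n + min (rho n) (rho n')) * ‖rw2 y'‖ ≤ rho n * ‖rw2 y‖ := by nlinarith
  have hbig : ka ≤ rho n' := by
    have h1 := one_le_uu (ctr om n' p' b') y'
    have h2 : ‖rw2 y'‖ ≤ 2 * mu := by nlinarith
    have h4 : ‖uu (ctr om n' p' b') y'‖ * ‖rw2 y'‖ ≤ rho n' * (2 * mu) * (2 * mu) :=
      mul_le_mul (hin'.le.trans (mul_le_mul_of_nonneg_left h2 hr'.le)) h2 hp1.le (by positivity)
    rw [hka, div_le_iff₀ (by positivity)]
    nlinarith
  have hmin : ka * rho n ≤ min (rho n) (rho n') := by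
    have := rho_le n
    apply le_min <;> nlinarith
  have h7 : rho n * ((1 + ka) * ‖rw2 y'‖) ≤ rho n * ‖rw2 y‖ := by nlinarith
  have h8 : (1 + ka) * ‖rw2 y'‖ ≤ ‖rw2 y‖ := le_of_mul_le_mul_left h7 hr
  nlinarith

theorem lt_ne_one (om : ℂ) (n : ℕ) (p : ℂ) : lt om n p true ≠ 1 := by
  intro h
  have h1 : lt om n p true 1 0 = (cu n : ℂ) := rfl
  rw [h, one_ent.2.2.1] at h1
  exact (cu n).ne_zero h1.symm

theorem grp_confined (hP : Pack K om P) (hd : Dense K) (h5 : ‖om‖ ≤ 5) (h3 : 3 ≤ ‖om‖) (g : SL2) :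
    ∃ c ∈ grp hP, c ≠ 1 ∧ ∀ i j, ‖(g⁻¹ * c * g) i j‖ ≤ 200000 := by
  have red : ∀ d ∈ grp hP, ∀ c ∈ grp hP, c ≠ 1 →
      (∀ i j, ‖((d * g)⁻¹ * c * (d * g)) i j‖ ≤ 200000) →
      ∃ c ∈ grp hP, c ≠ 1 ∧ ∀ i j, ‖(g⁻¹ * c * g) i j‖ ≤ 200000 := by
    intro d hdm c hc hc1 hb
    refine ⟨d⁻¹ * c * d, (grp hP).mul_mem ((grp hP).mul_mem ((grp hP).inv_mem hdm) hc) hdm, ?_, ?_⟩
    · intro h
      apply hc1
      calc c = d * (d⁻¹ * c * d) * d⁻¹ := by group
        _ = 1 := by rw [h]; group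
    · have e : g⁻¹ * (d⁻¹ * c * d) * g = (d * g)⁻¹ * c * (d * g) := by group
      rw [e]; exact hb
  by_cases hhigh : ∃ d ∈ grp hP, ‖rw2 (d * g)‖ ≤ 3
  · obtain ⟨d, hdm, h⟩ := hhigh
    refine red d hdm (tr 1) (tr_mem hP) ?_ fun i j => ?_
    · intro h1
      have h2 := (tr_ent 1).2.1
      rw [h1, one_ent.2.1] at h2
      exact zero_ne_one h2
    · have h1 := conj_tr_le (d * g) i j
      have h2 := rw2_pos (d * g)
      nlinarith
  push Not at hhigh
  obtain ⟨d, hdm, hout⟩ := exists_outside hP h5 h3 g fun d hd => by linarith [hhigh d hd]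
  have hR := hhigh d hdm
  set y := d * g
  set R := ‖rw2 y‖ with hRdef
  obtain ⟨z, hz⟩ := exists_foot y
  set h : ℝ := (R * R)⁻¹ with hh
  have hRR : 9 < R * R := by nlinarith
  have hh0 : 0 < h := by positivity
  have hhR : h * (R * R) = 1 := inv_mul_cancel₀ (by positivity)
  have hh1 : h < 1 / 5 := by nlinarith
  have hzu : ‖uu z y‖ ≤ h * R := by
    have : ‖uu z y‖ * R ≤ h * R * R := by rw [mul_assoc, hhR]; exact hz
    exact le_of_mul_le_mul_right this (by linarith)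
  obtain ⟨n, p, hp, hn1, hn2, hn3⟩ := hP.room hd h5 h3 z hh0 hh1 (by
    intro n p hp b
    have h1 := hout n p hp b
    have h2 := uu_le (ctr om n p b) z y
    have h4 : (rho n - h) * R ≤ ‖z - ctr om n p b‖ * R := by nlinarith
    exact le_of_mul_le_mul_right h4 (by linarith))
  refine red d hdm (lt om n p true) (lt_mem hP hp true) (lt_ne_one om n p) fun i j => ?_
  have hu : ∀ b, ‖uu (ctr om n p b) y‖ ≤ 261 * h * R := fun b => by
    have h2 := uu_le (ctr om n p b) z y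
    have h4 := mul_le_mul_of_nonneg_right (hn3 b) (show 0 ≤ R by linarith)
    nlinarith
  have hb := conj_gam_le (cu n) (ctr om n p false) (ctr om n p true) y i j
  rw [norm_cu, inv_inv] at hb
  have hr := rho_pos n
  have t1 : rho n * (R * R) ≤ 40 := by nlinarith
  have t2 : ‖uu (ctr om n p true) y‖ * ‖uu (ctr om n p false) y‖ ≤ 261 * 261 * 2 * rho n := by
    have h1 := mul_le_mul (hu true) (hu false) (norm_nonneg _) (by positivity)
    have e : 261 * h * R * (261 * h * R) = 261 * 261 * h * (h * (R * R)) := by ring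
    rw [e, hhR] at h1
    linarith
  have t3 : (rho n)⁻¹ * (‖uu (ctr om n p true) y‖ * ‖uu (ctr om n p false) y‖) ≤ 261 * 261 * 2 := by
    rw [inv_mul_le_iff₀ hr]; linarith
  have e : lt om n p true = gam (cu n) (ctr om n p false) (ctr om n p true) := rfl
  rw [e]
  linarith

end

end Pool.Agent.CF88
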