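import Mathlib

set_option autoImplicit false

/-! Multi-scale periodic packing of disc pairs in the complex plane. -/

namespace Pool.Agent.CF88

noncomputable def rho (n : ℕ) : ℝ := (1 / 10) * (1 / 2) ^ n

theorem rho_pos (n : ℕ) : 0 < rho n := by unfold rho; positivity

theorem rho_succ (n : ℕ) : rho n = 2 * rho (n + 1) := by unfold rho; ring

theorem rho_anti {m n : ℕ} (h : m ≤ n) : rho n ≤ rho m := by
  unfold rho
  have := pow_le_pow_of_le_one (a := (1 / 2 : ℝ)) (by norm_num) (by norm_num) h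
  linarith

theorem rho_le (n : ℕ) : rho n ≤ 1 / 10 := by
  have := rho_anti (Nat.zero_le n)
  have h0 : rho 0 = 1 / 10 := by unfold rho; norm_num
  linarith

theorem exists_level {h : ℝ} (h0 : 0 < h) (h1 : h < 1 / 5) : ∃ n, rho n ≤ h ∧ h < 2 * rho n := by
  classical
  have hex : ∃ n, rho n ≤ h := by
    obtain ⟨n, hn⟩ := exists_pow_lt_of_lt_one h0 (show (1 / 2 : ℝ) < 1 by norm_num)
    refine ⟨n, ?_⟩
    unfold rho
    have : (0 : ℝ) < (1 / 2) ^ n := by positivity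
    linarith
  refine ⟨Nat.find hex, Nat.find_spec hex, ?_⟩
  rcases hn : Nat.find hex with _ | n
  · have : rho 0 = 1 / 10 := by unfold rho; norm_num
    linarith
  · have := Nat.find_min hex (m := n) (by omega)
    rw [← rho_succ]
    exact not_le.mp this

/-- centre of the disc `b` of the pair `(n, p)` -/
noncomputable def ctr (om : ℂ) (n : ℕ) (p : ℂ) (b : Bool) : ℂ :=
  cond b (p + (rho n : ℂ) * om) p

theorem ctr_add (om : ℂ) (n : ℕ) (p t : ℂ) (b : Bool) : ctr om n (p + t) b = ctr om n p b + t := by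
  cases b <;> simp [ctr]; ring

theorem norm_rho_mul (om : ℂ) (n : ℕ) : ‖(rho n : ℂ) * om‖ = rho n * ‖om‖ := by
  rw [norm_mul, Complex.norm_real, Real.norm_eq_abs, abs_of_pos (rho_pos n)]

theorem ctr_near {om : ℂ} (h5 : ‖om‖ ≤ 5) (n : ℕ) (p : ℂ) (b b' : Bool) :
    ‖ctr om n p b - ctr om n p b'‖ ≤ 5 * rho n := by
  have h := norm_rho_mul om n
  have h0 := rho_pos n
  have h1 : ‖(rho n : ℂ) * om‖ ≤ 5 * rho n := by rw [h]; nlinarith
  cases b <;> cases b' <;> simp only [ctr, cond_true, cond_false]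
  · simp; positivity
  · rw [norm_sub_rev]; simpa using h1
  · simpa using h1
  · simp; positivity

theorem exists_net (A : Set ℂ) (r : ℝ) :
    ∃ Q : Set ℂ, (0 < r → r ≤ 1 → (∀ x ∈ A, ∀ j : ℤ, x + j ∈ A) →
      Q ⊆ A ∧ (∀ x ∈ Q, ∀ j : ℤ, x + j ∈ Q) ∧ (∀ x ∈ Q, ∀ y ∈ Q, x ≠ y → r ≤ ‖x - y‖) ∧
      ∀ x ∈ A, ∃ p ∈ Q, ‖x - p‖ < r) := by
  by_cases hyp : 0 < r ∧ r ≤ 1 ∧ ∀ x ∈ A, ∀ j : ℤ, x + j ∈ A
  swap
  · exact ⟨∅, fun h1 h2 h3 => absurd ⟨h1, h2, h3⟩ hyp⟩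
  obtain ⟨hr0, hr1, hA⟩ := hyp
  let S : Set (Set ℂ) := {Q | Q ⊆ A ∧ (∀ x ∈ Q, ∀ j : ℤ, x + j ∈ Q) ∧
    (∀ x ∈ Q, ∀ y ∈ Q, x ≠ y → r ≤ ‖x - y‖)}
  obtain ⟨Q, hQ⟩ := zorn_subset S (by
    intro c hc hch
    refine ⟨⋃₀ c, ⟨?_, ?_, ?_⟩, fun s hs => Set.subset_sUnion_of_mem hs⟩
    · rintro x ⟨s, hs, hx⟩; exact (hc hs).1 hx
    · rintro x ⟨s, hs, hx⟩ j; exact ⟨s, hs, (hc hs).2.1 x hx j⟩
    · rintro x ⟨s, hs, hx⟩ y ⟨t, ht, hy⟩ hxy
      rcases hch.total hs ht with h | h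
      · exact (hc ht).2.2 x (h hx) y hy hxy
      · exact (hc hs).2.2 x hx y (h hy) hxy)
  obtain ⟨h1, h2, h3⟩ := hQ.prop
  refine ⟨Q, fun _ _ _ => ⟨h1, h2, h3, ?_⟩⟩
  intro x hx
  by_contra hno
  push Not at hno
  have far : ∀ (j : ℤ), ∀ y ∈ Q, r ≤ ‖x + j - y‖ := by
    intro j y hy
    have := hno _ (h2 y hy (-j))
    have e : x - (y + ((-j : ℤ) : ℂ)) = x + j - y := by push_cast; ring
    rwa [e] at this
  have hmem : Q ∪ Set.range (fun j : ℤ => x + j) ∈ S := by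
    refine ⟨?_, ?_, ?_⟩
    · rintro y (hy | ⟨j, rfl⟩)
      · exact h1 hy
      · exact hA x hx j
    · rintro y (hy | ⟨j, rfl⟩) i
      · exact Or.inl (h2 y hy i)
      · exact Or.inr ⟨j + i, by push_cast; ring⟩
    · rintro y (hy | ⟨j, rfl⟩) w (hw | ⟨i, rfl⟩) hne
      · exact h3 y hy w hw hne
      · rw [norm_sub_rev]; exact far i y hy
      · exact far j w hw
      · have hji : j - i ≠ 0 := by
          intro h
          apply hne
          have : j = i := by omega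
          simp [this]
        have e : x + (j : ℂ) - (x + (i : ℂ)) = ((j - i : ℤ) : ℂ) := by push_cast; ring
        show r ≤ ‖x + (j : ℂ) - (x + (i : ℂ))‖
        rw [e, Complex.norm_intCast]
        have : (1 : ℝ) ≤ |((j - i : ℤ) : ℝ)| := by
          have := Int.one_le_abs hji
          exact_mod_cast this
        linarith
  have hsub := hQ.le_of_ge hmem Set.subset_union_left
  have hxQ : x ∈ Q := hsub (Or.inr ⟨0, by simp⟩)
  have := hno x hxQ
  simp at this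
  linarith

noncomputable def net (A : Set ℂ) (r : ℝ) : Set ℂ := (exists_net A r).choose

noncomputable def pk (K : Set ℂ) (om : ℂ) (n : ℕ) : Set ℂ :=
  net {x | x ∈ K ∧ ∀ m, m < n → ∀ p ∈ pk K om m, ∀ b,
    rho m + 7 * rho n ≤ ‖x - ctr om m p b‖} (10 * rho n)
termination_by n

structure Pack (K : Set ℂ) (om : ℂ) (P : ℕ → Set ℂ) : Prop where
  mem : ∀ n, P n ⊆ K
  per : ∀ n, ∀ p ∈ P n, ∀ j : ℤ, p + j ∈ P n
  same : ∀ n, ∀ p ∈ P n, ∀ p' ∈ P n, p ≠ p' → 10 * rho n ≤ ‖p - p'‖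
  cross : ∀ n, ∀ x ∈ P n, ∀ m, m < n → ∀ p ∈ P m, ∀ b, rho m + 7 * rho n ≤ ‖x - ctr om m p b‖
  full : ∀ n, ∀ x ∈ K, (∀ m, m < n → ∀ p ∈ P m, ∀ b, rho m + 7 * rho n ≤ ‖x - ctr om m p b‖) →
    ∃ p ∈ P n, ‖x - p‖ < 10 * rho n

theorem exists_pack (K : Set ℂ) (om : ℂ) (hK : ∀ x ∈ K, ∀ j : ℤ, x + j ∈ K) :
    ∃ P, Pack K om P := by
  have spec : ∀ n, (∀ m, m < n → ∀ p ∈ pk K om m, ∀ j : ℤ, p + j ∈ pk K om m) →
      pk K om n ⊆ {x | x ∈ K ∧ ∀ m, m < n → ∀ p ∈ pk K om m, ∀ b,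
          rho m + 7 * rho n ≤ ‖x - ctr om m p b‖} ∧
        (∀ x ∈ pk K om n, ∀ j : ℤ, x + j ∈ pk K om n) ∧
        (∀ x ∈ pk K om n, ∀ y ∈ pk K om n, x ≠ y → 10 * rho n ≤ ‖x - y‖) ∧
        ∀ x ∈ {x | x ∈ K ∧ ∀ m, m < n → ∀ p ∈ pk K om m, ∀ b,
          rho m + 7 * rho n ≤ ‖x - ctr om m p b‖}, ∃ p ∈ pk K om n, ‖x - p‖ < 10 * rho n := by
    intro n ih
    have h := (exists_net {x | x ∈ K ∧ ∀ m, m < n → ∀ p ∈ pk K om m, ∀ b,
      rho m + 7 * rho n ≤ ‖x - ctr om m p b‖} (10 * rho n)).choose_spec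
      (by have := rho_pos n; linarith) (by have := rho_le n; linarith) (by
        rintro x ⟨hx, hx2⟩ j
        refine ⟨hK x hx j, fun m hm p hp b => ?_⟩
        have := hx2 m hm _ (ih m hm p hp (-j)) b
        rw [ctr_add] at this
        have e : x - (ctr om m p b + ((-j : ℤ) : ℂ)) = x + j - ctr om m p b := by push_cast; ring
        rwa [e] at this)
    have e : pk K om n = (exists_net {x | x ∈ K ∧ ∀ m, m < n → ∀ p ∈ pk K om m, ∀ b,
      rho m + 7 * rho n ≤ ‖x - ctr om m p b‖} (10 * rho n)).choose := by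
      rw [pk]; rfl
    rw [← e] at h
    exact h
  have per : ∀ n, ∀ p ∈ pk K om n, ∀ j : ℤ, p + j ∈ pk K om n := by
    intro n
    induction n using Nat.strong_induction_on with
    | _ n ih => exact (spec n ih).2.1
  have sp := fun n => spec n (fun m _ => per m)
  exact ⟨pk K om, fun n x hx => ((sp n).1 hx).1, per, fun n => (sp n).2.2.1,
    fun n x hx => ((sp n).1 hx).2, fun n x hx h => (sp n).2.2.2 x ⟨hx, h⟩⟩

theorem Pack.sep_lt {K : Set ℂ} {om : ℂ} {P : ℕ → Set ℂ} (hP : Pack K om P) (h5 : ‖om‖ ≤ 5)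
    {m n : ℕ} (hmn : m < n) {p p' : ℂ} (hp : p ∈ P m) (hp' : p' ∈ P n) (b b' : Bool) :
    rho m + 2 * rho n ≤ ‖ctr om m p b - ctr om n p' b'‖ := by
  have h1 := hP.cross n p' hp' m hmn p hp b
  have h2 := ctr_near h5 n p' false b'
  have h3 : ctr om n p' false = p' := rfl
  rw [h3] at h2
  have h4 : ‖p' - ctr om m p b‖ ≤ ‖p' - ctr om n p' b'‖ + ‖ctr om n p' b' - ctr om m p b‖ :=
    norm_sub_le_norm_sub_add_norm_sub _ _ _
  rw [norm_sub_rev (ctr om m p b)]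
  linarith

theorem Pack.sep {K : Set ℂ} {om : ℂ} {P : ℕ → Set ℂ} (hP : Pack K om P) (h5 : ‖om‖ ≤ 5)
    (h3 : 3 ≤ ‖om‖) {m n : ℕ} {p p' : ℂ} (hp : p ∈ P m) (hp' : p' ∈ P n) (b b' : Bool)
    (hne : ¬ (m = n ∧ p = p' ∧ b = b')) :
    rho m + rho n + min (rho m) (rho n) ≤ ‖ctr om m p b - ctr om n p' b'‖ := by
  rcases lt_trichotomy m n with h | h | h
  · have := hP.sep_lt h5 h hp hp' b b'
    have := min_le_right (rho m) (rho n)
    linarith
  · subst h
    rw [min_self]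
    have h0 := rho_pos m
    have hn := norm_rho_mul om m
    have hn3 : 3 * rho m ≤ ‖(rho m : ℂ) * om‖ := by rw [hn]; nlinarith
    have hn5 : ‖(rho m : ℂ) * om‖ ≤ 5 * rho m := by rw [hn]; nlinarith
    by_cases hpp : p = p'
    · subst hpp
      cases b <;> cases b' <;> simp only [ctr, cond_true, cond_false]
      · simp at hne
      · rw [norm_sub_rev, add_sub_cancel_left]; linarith
      · rw [add_sub_cancel_left]; linarith
      · simp at hne
    · have h10 := hP.same m p hp p' hp' hpp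
      cases b <;> cases b' <;> simp only [ctr, cond_true, cond_false]
      · linarith
      · have := norm_add_le (p - (p' + (rho m : ℂ) * om)) ((rho m : ℂ) * om)
        have e : p - (p' + (rho m : ℂ) * om) + (rho m : ℂ) * om = p - p' := by ring
        rw [e] at this; linarith
      · have := norm_sub_le (p + (rho m : ℂ) * om - p') ((rho m : ℂ) * om)
        have e : p + (rho m : ℂ) * om - p' - (rho m : ℂ) * om = p - p' := by ring
        rw [e] at this; linarith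
      · have e : p + (rho m : ℂ) * om - (p' + (rho m : ℂ) * om) = p - p' := by ring
        rw [e]; linarith
  · have := hP.sep_lt h5 h hp' hp b' b
    have := min_le_left (rho m) (rho n)
    rw [norm_sub_rev]
    linarith

theorem Pack.room {K : Set ℂ} {om : ℂ} {P : ℕ → Set ℂ} (hP : Pack K om P) (hd : Dense K)
    (h5 : ‖om‖ ≤ 5) (h3 : 3 ≤ ‖om‖) (z : ℂ) {h : ℝ} (h0 : 0 < h) (h1 : h < 1 / 5)
    (H : ∀ n, ∀ p ∈ P n, ∀ b, rho n - h ≤ ‖z - ctr om n p b‖) :
    ∃ n, ∃ p ∈ P n, h ≤ 2 * rho n ∧ rho n ≤ 40 * h ∧ ∀ b, ‖z - ctr om n p b‖ ≤ 260 * h := by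
  obtain ⟨n, hn1, hn2⟩ := exists_level h0 h1
  have ha := rho_pos n
  by_cases hA : ∃ m, m < n ∧ ∃ p ∈ P m, ∃ b, ‖z - ctr om m p b‖ < rho m + 20 * rho n ∧
      rho m ≤ 40 * rho n
  · obtain ⟨m, hm, p, hp, b, hb, h40⟩ := hA
    have := rho_anti hm.le
    refine ⟨m, p, hp, by linarith, by linarith, fun b' => ?_⟩
    have h6 := ctr_near h5 m p b b'
    have h7 : ‖z - ctr om m p b'‖ ≤ ‖z - ctr om m p b‖ + ‖ctr om m p b - ctr om m p b'‖ :=
      norm_sub_le_norm_sub_add_norm_sub _ _ _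
    linarith
  push Not at hA
  have hz' : ∃ z', ‖z' - z‖ ≤ 10 * rho n ∧ ∀ m, m < n → ∀ p ∈ P m, ∀ b,
      rho m + 8 * rho n ≤ ‖z' - ctr om m p b‖ := by
    by_cases hB : ∃ m, m < n ∧ ∃ p ∈ P m, ∃ b, ‖z - ctr om m p b‖ < rho m + 20 * rho n
    · obtain ⟨m, hm, p, hp, b, hb⟩ := hB
      have h40 := hA m hm p hp b hb
      have hH := H m p hp b
      set s := ctr om m p b with hs
      have hd0 : 0 < ‖z - s‖ := by linarith
      set t : ℝ := 10 * rho n / ‖z - s‖ with ht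
      have ht0 : 0 < t := by positivity
      have hnorm : ‖(t : ℂ) * (z - s)‖ = 10 * rho n := by
        rw [norm_mul, Complex.norm_real, Real.norm_eq_abs, abs_of_pos ht0, ht]
        field_simp
      refine ⟨z + (t : ℂ) * (z - s), by rw [add_sub_cancel_left, hnorm], ?_⟩
      intro m' hm' p' hp' b'
      by_cases hsame : m = m' ∧ p = p' ∧ b = b'
      · obtain ⟨rfl, rfl, rfl⟩ := hsame
        have e : z + (t : ℂ) * (z - s) - s = ((1 + t : ℝ) : ℂ) * (z - s) := by push_cast; ring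
        rw [← hs, e, norm_mul, Complex.norm_real, Real.norm_eq_abs, abs_of_pos (by linarith)]
        have : t * ‖z - s‖ = 10 * rho n := by rw [ht]; field_simp
        nlinarith
      · have hfar : rho m' + 20 * rho n ≤ ‖z - ctr om m' p' b'‖ := by
          by_contra hc
          push Not at hc
          have h40' := hA m' hm' p' hp' b' hc
          have hsep := hP.sep h5 h3 hp hp' b b' hsame
          have hmin : 40 * rho n < min (rho m) (rho m') := lt_min h40 h40'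
          have htri : ‖s - ctr om m' p' b'‖ ≤ ‖s - z‖ + ‖z - ctr om m' p' b'‖ :=
            norm_sub_le_norm_sub_add_norm_sub _ _ _
          rw [norm_sub_rev s z] at htri
          linarith
        have := norm_sub_le (z + (t : ℂ) * (z - s) - ctr om m' p' b') ((t : ℂ) * (z - s))
        have e : z + (t : ℂ) * (z - s) - ctr om m' p' b' - (t : ℂ) * (z - s) =
          z - ctr om m' p' b' := by ring
        rw [e, hnorm] at this
        linarith
    · push Not at hB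
      refine ⟨z, by simp; positivity, fun m hm p hp b => ?_⟩
      have := hB m hm p hp b
      linarith
  obtain ⟨z', hz1, hz2⟩ := hz'
  obtain ⟨x, hxK, hx⟩ := hd.exists_dist_lt z' ha
  rw [dist_eq_norm] at hx
  obtain ⟨p, hp, hxp⟩ := hP.full n x hxK (by
    intro m hm p hp b
    have h6 := hz2 m hm p hp b
    have h7 : ‖z' - ctr om m p b‖ ≤ ‖z' - x‖ + ‖x - ctr om m p b‖ :=
      norm_sub_le_norm_sub_add_norm_sub _ _ _
    linarith)
  refine ⟨n, p, hp, hn2.le, by linarith, fun b => ?_⟩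
  have h6 := ctr_near h5 n p false b
  have h7 : ctr om n p false = p := rfl
  rw [h7] at h6
  have h8 : ‖z - ctr om n p b‖ ≤ ‖z - p‖ + ‖p - ctr om n p b‖ :=
    norm_sub_le_norm_sub_add_norm_sub _ _ _
  have h9 : ‖z - p‖ ≤ ‖z - x‖ + ‖x - p‖ := norm_sub_le_norm_sub_add_norm_sub _ _ _
  have h10 : ‖z - x‖ ≤ ‖z - z'‖ + ‖z' - x‖ := norm_sub_le_norm_sub_add_norm_sub _ _ _
  rw [norm_sub_rev z z'] at h10
  linarith

end Pool.Agent.CF88
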